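import Pool.Agent.Lib.MP_06c6c1_co.FinalA

set_option autoImplicit false

namespace Pool.Agent.Results.MP_06c6c1_co.BipartiteFullRange

/-- Q1 for every bipartite `F`, in the full range of `k`. -/
theorem result :
    ∀ (n : ℕ) (F : SimpleGraph (Fin n)), F.Colorable 2 →
    ∃ C : ℝ, ∃ Δ₀ : ℕ, ∀ Δ : ℕ, Δ₀ ≤ Δ →
    ∀ k : ℝ, 1 / 2 ≤ k → k < (Δ : ℝ) ^ n →
    ∀ (V : Type) [Fintype V] (G : SimpleGraph V),
      (∀ v : V, (G.neighborSet v).ncard ≤ Δ) →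
      (∃ v : V, (G.neighborSet v).ncard = Δ) →
      (∀ v : V, ((({H : G.Subgraph | H.verts ⊆ G.neighborSet v ∧ Nonempty (F ≃g H.coe)} :
          Set G.Subgraph).ncard : ℝ) ≤ k)) →
      ∃ m : ℕ, (m : ℝ) ≤ C * (Δ : ℝ) / Real.log ((Δ : ℝ) * k ^ (-(1 : ℝ) / (n : ℝ))) ∧
        ∀ M : V → V → Fin m → Fin m → Prop,
          (∀ u v i j, M u v i j ↔ M v u j i) →
          (∀ u v i j j', M u v i j → M u v i j' → j = j') →
          (∀ u v i i' j, M u v i j → M u v i' j → i = i') →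
          ∃ φ : V → Fin m, ∀ u v, G.Adj u v → ¬ M u v (φ u) (φ v) :=
  fun n F hF => MP06c.finalA n F hF

end Pool.Agent.Results.MP_06c6c1_co.BipartiteFullRange
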