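import Pool.Agent.Lib.MP_06c6c1_co.RandParts

set_option autoImplicit false

namespace Pool.Agent.Results.MP_06c6c1_co.ConstantGrowth

/-- For every `s ≥ 2` and `c < (log s) / 4` and all large `Δ` there is a finite graph of maximum degree `Δ`
in which no neighbourhood contains a clique on `s` vertices and whose chromatic number is greater than
`c * Δ / log Δ`. -/
theorem result :
    ∀ (s : ℕ), 2 ≤ s → ∀ c : ℝ, c < Real.log s / 4 →
    ∃ Δ₀ : ℕ, ∀ Δ : ℕ, Δ₀ ≤ Δ →
    ∃ (V : Type) (_ : Fintype V) (G : SimpleGraph V),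
      (∀ v : V, (G.neighborSet v).ncard ≤ Δ) ∧
      (∃ v : V, (G.neighborSet v).ncard = Δ) ∧
      (∀ v : V, (G.induce (G.neighborSet v)).CliqueFree s) ∧
      ∀ m : ℕ, G.Colorable m → c * (Δ : ℝ) / Real.log (Δ : ℝ) < (m : ℝ) :=
  fun s hs c hc => Pool.Agent.Lib.MP_06c6c1_co.RandParts.main s hs c hc

end Pool.Agent.Results.MP_06c6c1_co.ConstantGrowth
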