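import Pool.Agent.Lib.MP_06c6c1_co.FA.Fin

set_option autoImplicit false

namespace Pool.Agent.Results.MP_06c6c1_co.SmallCodegrees

open Finset Classical

/-- Every `F`, full range of `k`, small codegrees: with `g = Δ k ^ (-1/n)` there is a probability
distribution `p` on the independent sets of `G` such that each vertex is covered with probability at
least `log g / (C Δ)`, `C` absolute, i.e. the fractional chromatic number is at most `C Δ / log g`. -/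
theorem result :
    ∃ C : ℝ, 0 < C ∧ ∀ (n : ℕ) (F : SimpleGraph (Fin n)), ∃ K g₀ : ℝ, ∀ Δ : ℕ, ∀ k : ℝ,
      1 / 2 ≤ k → k < (Δ : ℝ) ^ n → g₀ ≤ (Δ : ℝ) * k ^ (-(1 : ℝ) / (n : ℝ)) →
    ∀ (V : Type) [Fintype V] (G : SimpleGraph V),
      (∀ v : V, (G.neighborSet v).ncard ≤ Δ) →
      (∀ v : V, ((({H : G.Subgraph | H.verts ⊆ G.neighborSet v ∧ Nonempty (F ≃g H.coe)} :
          Set G.Subgraph).ncard : ℝ) ≤ k)) →
      (∀ u v : V, G.Adj u v → ((G.neighborSet u ∩ G.neighborSet v).ncard : ℝ) ≤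
        Δ * Real.exp (-K * (Real.log (Real.log ((Δ : ℝ) * k ^ (-(1 : ℝ) / (n : ℝ))))) ^ 3)) →
      ∃ p : Finset V → ℝ, (∀ I, 0 ≤ p I) ∧
        (∀ I, p I ≠ 0 → ∀ x ∈ I, ∀ y ∈ I, ¬ G.Adj x y) ∧
        ∑ I : Finset V, p I = 1 ∧
        ∀ v : V, Real.log ((Δ : ℝ) * k ^ (-(1 : ℝ) / (n : ℝ))) / (C * Δ) ≤
          ∑ I ∈ univ.filter (fun I : Finset V => v ∈ I), p I :=
  MP06c.FA.final

end Pool.Agent.Results.MP_06c6c1_co.SmallCodegrees
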